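import Pool.Agent.H104.MZ.Stm

/-!
Project MZ (helper104), job FOU1: the Fourier identity.
-/

set_option autoImplicit false

open Polynomial Finset Pool.Agent.H104.MZ

namespace Pool.Agent.Q224.MZ

/-- `2 cos (2 π P / Λ) = ω^P + ω^(-P)`. -/
lemma fou_cos (Λ P : ℕ) :
    ((Real.cos (Real.pi * (2 * (P : ℝ) / Λ)) : ℝ) : ℂ) =
      ((Complex.exp (2 * Real.pi * Complex.I / Λ)) ^ (P : ℤ) +
        (Complex.exp (2 * Real.pi * Complex.I / Λ)) ^ (-(P : ℤ))) / 2 := by
  rw [Complex.ofReal_cos, Complex.cos, ← Complex.exp_int_mul, ← Complex.exp_int_mul]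
  congr 3
  · push_cast; ring
  · push_cast; ring

lemma fou_prod {ι : Type*} {s : Finset ι} {f : ι → ℤ} {ω : ℂ} (h : ω ≠ 0) :
    ∏ i ∈ s, ω ^ (f i) = ω ^ (∑ i ∈ s, f i) := by
  classical
  induction s using Finset.induction_on with
  | empty => simp
  | insert a s ha ih => rw [Finset.prod_insert ha, Finset.sum_insert ha, zpow_add₀ h, ih]

/-- The bound for the moments. -/
lemma fou_bound (N m k : ℕ) (hk : k < m) (a : ℕ → ℤ) (ha : ∀ j, a j = 1 ∨ a j = -1) (hN : 1 ≤ N) :
    |∑ j ∈ range N, a j * ((j.choose k : ℕ) : ℤ)| ≤ ((N ^ m : ℕ) : ℤ) := by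
  calc |∑ j ∈ range N, a j * ((j.choose k : ℕ) : ℤ)|
      ≤ ∑ j ∈ range N, |a j * ((j.choose k : ℕ) : ℤ)| := Finset.abs_sum_le_sum_abs _ _
    _ ≤ ∑ j ∈ range N, ((N ^ k : ℕ) : ℤ) := by
        apply Finset.sum_le_sum
        intro j hj
        rw [Finset.mem_range] at hj
        rw [abs_mul]
        have h1 : |a j| = 1 := by
          rcases ha j with h | h <;> rw [h] <;> simp
        rw [h1, one_mul, Nat.abs_cast]
        have h2 : j.choose k ≤ N ^ k :=
          (Nat.choose_le_pow j k).trans (Nat.pow_le_pow_left hj.le k)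
        exact_mod_cast h2
    _ = ((N * N ^ k : ℕ) : ℤ) := by
        rw [Finset.sum_const, card_range, nsmul_eq_mul]
        push_cast
        ring
    _ ≤ ((N ^ m : ℕ) : ℤ) := by
        have h3 : N * N ^ k = N ^ (k + 1) := by ring
        rw [h3]
        exact_mod_cast Nat.pow_le_pow_right hN hk

/-- The geometric sum. -/
lemma fou_geom (Λ : ℕ) (Y : ℤ) (h0 : Y ≠ 0) (h1 : |Y| < Λ) :
    ∑ τ ∈ range Λ, ((Complex.exp (2 * Real.pi * Complex.I / Λ)) ^ Y) ^ τ = 0 := by
  have hΛ : Λ ≠ 0 := by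
    intro h
    rw [h] at h1
    have := abs_nonneg Y
    simp at h1
    omega
  have hprim : IsPrimitiveRoot (Complex.exp (2 * Real.pi * Complex.I / Λ)) Λ :=
    Complex.isPrimitiveRoot_exp Λ hΛ
  have h2 : (Complex.exp (2 * Real.pi * Complex.I / Λ)) ^ Y ≠ 1 := by
    intro h
    rw [hprim.zpow_eq_one_iff_dvd] at h
    have h3 := Int.le_of_dvd (by
      exact abs_pos.mpr h0) ((dvd_abs _ _).mpr h)
    omega
  have h3 : ((Complex.exp (2 * Real.pi * Complex.I / Λ)) ^ Y) ^ Λ = 1 := by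
    rw [← zpow_natCast, ← zpow_mul, mul_comm Y, zpow_mul, zpow_natCast, hprim.pow_eq_one, one_zpow]
  rw [geom_sum_eq h2, h3, sub_self, zero_div]

theorem t_FOU1 : S_FOU1 := by
  intro N m Λ hΛ hG
  obtain ⟨ω, hω⟩ : ∃ ω : ℂ, ω = Complex.exp (2 * Real.pi * Complex.I / Λ) := ⟨_, rfl⟩
  have hω0 : ω ≠ 0 := by rw [hω]; exact Complex.exp_ne_zero _
  have hN : 1 ≤ N := by
    by_contra h
    have hN0 : N = 0 := by omega
    apply hG
    refine ⟨fun _ => 1, fun _ => Or.inl rfl, ?_⟩
    intro k _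
    rw [hN0, Finset.sum_range_zero]
  -- signs of a subset
  let sg : Finset ℕ → ℕ → ℤ := fun T j => if j ∈ T then 1 else -1
  let P : (Fin m → ℕ) → ℕ → ℕ := fun t j => ∑ k : Fin m, t k * j.choose k
  have hprod : ∀ t : Fin m → ℕ, ((∏ j ∈ range N,
      Real.cos (Real.pi * (2 * (∑ k : Fin m, (t k : ℝ) * ((j.choose k : ℕ) : ℝ)) / Λ)) : ℝ) : ℂ) =
      (1 / 2) ^ N * ∑ T ∈ (range N).powerset, ∏ j ∈ range N, ω ^ (sg T j * (P t j : ℤ)) := by
    intro t
    rw [Complex.ofReal_prod]
    have h1 : ∀ j ∈ range N, ((Real.cos (Real.pi *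
        (2 * (∑ k : Fin m, (t k : ℝ) * ((j.choose k : ℕ) : ℝ)) / Λ)) : ℝ) : ℂ) =
        (1 / 2) * (ω ^ (P t j : ℤ) + ω ^ (-(P t j : ℤ))) := by
      intro j _
      have h2 := fou_cos Λ (P t j)
      rw [← hω] at h2
      have h3 : ((P t j : ℕ) : ℝ) = ∑ k : Fin m, (t k : ℝ) * ((j.choose k : ℕ) : ℝ) := by
        simp only [P]
        push_cast
        rfl
      rw [h3] at h2
      rw [h2]
      ring
    rw [Finset.prod_congr rfl h1, Finset.prod_mul_distrib, Finset.prod_const, card_range,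
      Finset.prod_add]
    congr 1
    apply Finset.sum_congr rfl
    intro T hT
    rw [Finset.mem_powerset] at hT
    have h4 : ∏ j ∈ range N, ω ^ (sg T j * (P t j : ℤ)) =
        (∏ j ∈ T, ω ^ (sg T j * (P t j : ℤ))) * ∏ j ∈ range N \ T, ω ^ (sg T j * (P t j : ℤ)) := by
      rw [mul_comm]
      exact (Finset.prod_sdiff hT).symm
    rw [h4]
    congr 1
    · apply Finset.prod_congr rfl
      intro j hj
      simp only [sg, if_pos hj, one_mul]
    · apply Finset.prod_congr rfl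
      intro j hj
      rw [Finset.mem_sdiff] at hj
      simp only [sg, if_neg hj.2, neg_mul, one_mul]
  have hC : ((∑ t ∈ Fintype.piFinset (fun _ : Fin m => range Λ), ∏ j ∈ range N,
      Real.cos (Real.pi * (2 * (∑ k : Fin m, (t k : ℝ) * ((j.choose k : ℕ) : ℝ)) / Λ)) : ℝ) : ℂ) =
      0 := by
    rw [Complex.ofReal_sum, Finset.sum_congr rfl (fun t _ => hprod t), ← Finset.mul_sum,
      Finset.sum_comm]
    have hT : ∀ T ∈ (range N).powerset,
        ∑ t ∈ Fintype.piFinset (fun _ : Fin m => range Λ),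
          ∏ j ∈ range N, ω ^ (sg T j * (P t j : ℤ)) = 0 := by
      intro T _
      have hsg : ∀ j, sg T j = 1 ∨ sg T j = -1 := by
        intro j
        by_cases h : j ∈ T
        · left; simp only [sg, if_pos h]
        · right; simp only [sg, if_neg h]
      -- the moments
      let Y : Fin m → ℤ := fun k => ∑ j ∈ range N, sg T j * ((j.choose k : ℕ) : ℤ)
      have h1 : ∀ t : Fin m → ℕ, ∏ j ∈ range N, ω ^ (sg T j * (P t j : ℤ)) =
          ∏ k : Fin m, (ω ^ (Y k)) ^ (t k) := by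
        intro t
        have h2 : ∏ j ∈ range N, ω ^ (sg T j * (P t j : ℤ)) =
            ω ^ (∑ j ∈ range N, sg T j * (P t j : ℤ)) := by
          rw [← fou_prod hω0]
        have h3 : ∏ k : Fin m, (ω ^ (Y k)) ^ (t k) = ω ^ (∑ k : Fin m, Y k * (t k : ℤ)) := by
          rw [← fou_prod hω0]
          apply Finset.prod_congr rfl
          intro k _
          rw [zpow_mul, zpow_natCast]
        rw [h2, h3]
        congr 1
        simp only [Y, P]
        push_cast
        simp only [Finset.mul_sum, Finset.sum_mul]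
        rw [Finset.sum_comm]
        apply Finset.sum_congr rfl
        intro k _
        apply Finset.sum_congr rfl
        intro j _
        ring
      rw [Finset.sum_congr rfl (fun t _ => h1 t)]
      have h5 := Finset.prod_univ_sum (fun _ : Fin m => range Λ)
        (fun (k : Fin m) (τ : ℕ) => (ω ^ (Y k)) ^ τ)
      rw [← h5]
      -- some moment is nonzero
      obtain ⟨k, hk⟩ : ∃ k : Fin m, Y k ≠ 0 := by
        by_contra hcon
        push Not at hcon
        apply hG
        exact ⟨sg T, hsg, fun k hk => hcon ⟨k, hk⟩⟩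
      apply Finset.prod_eq_zero (Finset.mem_univ k)
      rw [hω]
      apply fou_geom Λ (Y k) hk
      have h6 := fou_bound N m k k.isLt (sg T) hsg hN
      have h7 : ((N ^ m : ℕ) : ℤ) < (Λ : ℤ) := by exact_mod_cast hΛ
      exact lt_of_le_of_lt h6 h7
    rw [Finset.sum_congr rfl hT, Finset.sum_const_zero, mul_zero]
  exact_mod_cast hC

end Pool.Agent.Q224.MZ
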