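import Pool.Agent.H104.MZ.Stm

/-!
Project MZ (helper104), job GCD: a power of `X^Q - 1` is a combination of the polynomials `L(X^σ)`.
-/

set_option autoImplicit false

open Polynomial Finset Pool.Agent.H104.MZ

namespace Pool.Agent.Q224.MZ

/-- A product of linear factors whose roots are `Q`-th roots of unity divides a power of `X^Q-1`. -/
lemma gcd_prod_dvd (Q : ℕ) (s : Multiset ℂ) (hs : ∀ z ∈ s, z ^ Q = 1) :
    (s.map (fun z => (X - C z : ℂ[X]))).prod ∣ (X ^ Q - 1) ^ (Multiset.card s) := by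
  induction s using Multiset.induction_on with
  | empty => simp
  | cons z s ih =>
    rw [Multiset.map_cons, Multiset.prod_cons, Multiset.card_cons, pow_succ']
    apply mul_dvd_mul
    · rw [Polynomial.dvd_iff_isRoot]
      have h1 : z ^ Q = 1 := hs z (Multiset.mem_cons_self z s)
      simp [IsRoot.def, h1]
    · exact ih (fun w hw => hs w (Multiset.mem_cons_of_mem hw))

theorem t_GCD : S_GCD := by
  intro L hL0
  obtain ⟨P, hP⟩ : ∃ P : ℂ[X], P = L.map (Int.castRingHom ℂ) := ⟨_, rfl⟩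
  rw [← hP]
  have hPc : P.coeff 0 ≠ 0 := by
    rw [hP, coeff_map]
    simpa using hL0
  have hP0 : P ≠ 0 := by
    intro h
    rw [h] at hPc
    exact hPc (by simp)
  obtain ⟨S, hS⟩ : ∃ S : ℕ, S = P.natDegree + 1 := ⟨_, rfl⟩
  let v : Fin S → ℂ[X] := fun σ => expand ℂ ((σ : ℕ) + 1) P
  obtain ⟨D, hD⟩ := (IsPrincipalIdealRing.principal (Ideal.span (Set.range v))).principal
  have hDdvd : ∀ σ : Fin S, D ∣ v σ := by
    intro σ
    have h1 : v σ ∈ Ideal.span (Set.range v) := Ideal.subset_span ⟨σ, rfl⟩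
    rw [hD] at h1
    exact Ideal.mem_span_singleton.mp h1
  have hSpos : 0 < S := by omega
  have hD0 : D ≠ 0 := by
    intro h
    have h1 := hDdvd ⟨0, hSpos⟩
    rw [h, zero_dvd_iff] at h1
    have h2 : v ⟨0, hSpos⟩ = P := by
      simp [v]
    rw [h2] at h1
    exact hP0 h1
  have hroot : ∀ z ∈ D.roots, z ^ (S.factorial) = 1 := by
    intro z hz
    have hz1 : D.IsRoot z := (mem_roots hD0).mp hz
    have hz2 : ∀ σ : Fin S, P.eval (z ^ ((σ : ℕ) + 1)) = 0 := by
      intro σ
      have h1 : (v σ).IsRoot z := hz1.dvd (hDdvd σ)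
      simp only [v, IsRoot.def] at h1
      rw [expand_eval] at h1
      exact h1
    have hz0 : z ≠ 0 := by
      intro h
      have h1 := hz2 ⟨0, hSpos⟩
      rw [h] at h1
      simp only [zero_add, pow_one] at h1
      rw [← coeff_zero_eq_eval_zero] at h1
      exact hPc h1
    -- pigeonhole
    have hcard : P.roots.toFinset.card < (Finset.univ : Finset (Fin S)).card := by
      rw [Finset.card_univ, Fintype.card_fin]
      calc P.roots.toFinset.card ≤ Multiset.card P.roots := Multiset.toFinset_card_le _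
        _ ≤ P.natDegree := card_roots' P
        _ < S := by omega
    obtain ⟨σ, -, τ, -, hne, heq⟩ := Finset.exists_ne_map_eq_of_card_lt_of_maps_to hcard
      (f := fun σ : Fin S => z ^ ((σ : ℕ) + 1)) (by
        intro σ _
        simp only [Multiset.mem_toFinset, mem_coe]
        exact (mem_roots hP0).mpr (hz2 σ))
    have key : ∀ σ τ : Fin S, (σ : ℕ) < (τ : ℕ) → z ^ ((σ : ℕ) + 1) = z ^ ((τ : ℕ) + 1) →
        z ^ (S.factorial) = 1 := by
      intro σ τ hlt he
      have h1 : z ^ ((τ : ℕ) - (σ : ℕ)) = 1 := by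
        have h2 : z ^ ((τ : ℕ) + 1) = z ^ ((σ : ℕ) + 1) * z ^ ((τ : ℕ) - (σ : ℕ)) := by
          rw [← pow_add]
          congr 1
          omega
        rw [h2] at he
        have h3 : z ^ ((σ : ℕ) + 1) ≠ 0 := pow_ne_zero _ hz0
        have h4 : z ^ ((σ : ℕ) + 1) * z ^ ((τ : ℕ) - (σ : ℕ)) = z ^ ((σ : ℕ) + 1) * 1 := by
          rw [mul_one]
          exact he.symm
        exact mul_left_cancel₀ h3 h4
      have h5 : ((τ : ℕ) - (σ : ℕ)) ∣ S.factorial :=
        Nat.dvd_factorial (by omega) (by omega)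
      obtain ⟨c, hc⟩ := h5
      rw [hc, pow_mul, h1, one_pow]
    rcases lt_trichotomy (σ : ℕ) (τ : ℕ) with h | h | h
    · exact key σ τ h heq
    · exact absurd (Fin.ext h) hne
    · exact key τ σ h heq.symm
  have hdvd : D ∣ (X ^ (S.factorial) - 1 : ℂ[X]) ^ (Multiset.card D.roots) := by
    have h1 := gcd_prod_dvd (S.factorial) D.roots hroot
    have h2 : D = C D.leadingCoeff * (D.roots.map (fun z => (X - C z : ℂ[X]))).prod :=
      (IsAlgClosed.splits D).eq_prod_roots
    have h3 : C D.leadingCoeff * (D.roots.map (fun z => (X - C z : ℂ[X]))).prod ∣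
        (X ^ (S.factorial) - 1 : ℂ[X]) ^ (Multiset.card D.roots) := by
      have hu : IsUnit (C D.leadingCoeff : ℂ[X]) :=
        isUnit_C.mpr (isUnit_iff_ne_zero.mpr (leadingCoeff_ne_zero.mpr hD0))
      exact (IsUnit.mul_left_dvd hu).mpr h1
    rw [← h2] at h3
    exact h3
  have hmem : (X ^ (S.factorial) - 1 : ℂ[X]) ^ (Multiset.card D.roots) ∈
      Ideal.span (Set.range v) := by
    rw [hD]
    exact Ideal.mem_span_singleton.mpr hdvd
  obtain ⟨c, hc⟩ := Ideal.mem_span_range_iff_exists_fun.mp hmem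
  refine ⟨S.factorial, S, Multiset.card D.roots, Nat.factorial_pos S,
    fun i => if h : i < S then c ⟨i, h⟩ else 0, ?_⟩
  rw [← hc, Finset.sum_range]
  apply Finset.sum_congr rfl
  intro i _
  simp [v]

end Pool.Agent.Q224.MZ
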