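import Pool.Agent.H104.MZ.Stm

/-!
Project MZ (helper104), job POLY: a sequence killed by `(T^Q-1)^e` on `[a,b)` is on every class modulo
`Q` given by an integer valued polynomial of degree `< e` (Newton interpolation).
-/

set_option autoImplicit false

open Polynomial Finset Pool.Agent.H104.MZ

namespace Pool.Agent.Q224.MZ

/-- The binomial polynomial `binom(X - c, k)`. -/
noncomputable def bnp (c : ℤ) (k : ℕ) : ℝ[X] :=
  C ((k.factorial : ℝ)⁻¹) * (descPochhammer ℝ k).comp (X - C (c : ℝ))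

/-- The binomial polynomial `binom(X - c, k)` evaluated at an integer is an integer. -/
lemma bnp_eval (c : ℤ) (k : ℕ) (z : ℤ) :
    (bnp c k).eval (z : ℝ) = ((Ring.choose (z - c) k : ℤ) : ℝ) := by
  unfold bnp
  rw [eval_mul, eval_C, eval_comp, eval_sub, eval_X, eval_C]
  have h1 : (descPochhammer ℝ k).eval ((z : ℝ) - (c : ℝ)) =
      ((k.factorial : ℝ)) * ((Ring.choose (z - c) k : ℤ) : ℝ) := by
    have h3 : (descPochhammer ℤ k).eval (z - c) = (k.factorial : ℤ) * Ring.choose (z - c) k := by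
      rw [eval_eq_smeval, Ring.descPochhammer_eq_factorial_smul_choose, nsmul_eq_mul]
    have h4 : (descPochhammer ℝ k).eval (((z - c : ℤ)) : ℝ) =
        (((descPochhammer ℤ k).eval (z - c) : ℤ) : ℝ) := by
      rw [← descPochhammer_map (Int.castRingHom ℝ) k, eval_intCast_map]
      simp
    rw [h3] at h4
    push_cast at h4
    exact h4
  rw [h1, ← mul_assoc, inv_mul_cancel₀ (by exact_mod_cast Nat.factorial_ne_zero k), one_mul]

lemma bnp_degree (c : ℤ) (k e : ℕ) (h : k < e) : (bnp c k).degree < e := by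
  have h1 : (bnp c k).natDegree ≤ k := by
    unfold bnp
    refine natDegree_C_mul_le _ _ |>.trans ?_
    rw [natDegree_comp, descPochhammer_natDegree, natDegree_X_sub_C, mul_one]
  calc (bnp c k).degree ≤ (bnp c k).natDegree := degree_le_natDegree
    _ ≤ k := by exact_mod_cast h1
    _ < e := by exact_mod_cast h

theorem t_POLY : S_POLY := by
  intro Q e a b n hQ hrec r
  -- the first index
  have hex : ∃ i : ℕ, a ≤ r + Q * i := ⟨a, by nlinarith⟩
  obtain ⟨i0, hi0, hmin⟩ : ∃ i0 : ℕ, a ≤ r + Q * i0 ∧ ∀ i : ℕ, a ≤ r + Q * i → i0 ≤ i := by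
    classical
    exact ⟨Nat.find hex, Nat.find_spec hex, fun i hi => Nat.find_min' hex hi⟩
  let w : ℕ → ℤ := fun t => n (r + Q * (i0 + t))
  let c : ℕ → ℤ := fun k => (fwdDiff 1)^[k] w 0
  -- the recurrence
  have hw : ∀ u : ℕ, r + Q * (i0 + u) + Q * e < b → (fwdDiff 1)^[e] w u = 0 := by
    intro u hu
    rw [fwdDiff_iter_eq_sum_shift]
    have h1 := hrec (r + Q * (i0 + u)) (by nlinarith) hu
    have h2 : ∑ k ∈ range (e + 1), ((-1 : ℤ) ^ (e - k) * (e.choose k : ℕ)) • w (u + k • 1) =
        (-1 : ℤ) ^ e * ∑ t ∈ range (e + 1), (-1 : ℤ) ^ t * ((e.choose t : ℕ) : ℤ) *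
          n (r + Q * (i0 + u) + Q * t) := by
      rw [Finset.mul_sum]
      apply Finset.sum_congr rfl
      intro t ht
      rw [Finset.mem_range] at ht
      have h3 : (-1 : ℤ) ^ (e - t) = (-1 : ℤ) ^ e * (-1 : ℤ) ^ t := by
        have h4 : (-1 : ℤ) ^ e = (-1 : ℤ) ^ (e - t) * (-1 : ℤ) ^ t := by
          rw [← pow_add]
          congr 1
          omega
        rw [h4, mul_assoc, ← mul_pow]
        simp
      rw [h3]
      have h5 : w (u + t • 1) = n (r + Q * (i0 + u) + Q * t) := by
        simp only [w, smul_eq_mul, mul_one]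
        congr 1
        ring
      rw [h5, smul_eq_mul]
      ring
    rw [h2, h1, mul_zero]
  refine ⟨∑ k ∈ range e, C ((c k : ℤ) : ℝ) * bnp i0 k, ?_, ?_, ?_⟩
  · rw [← mem_degreeLT]
    apply Submodule.sum_mem
    intro k hk
    rw [mem_degreeLT]
    have hk' : k < e := Finset.mem_range.mp hk
    refine lt_of_le_of_lt ?_ (bnp_degree i0 k e hk')
    rw [← smul_eq_C_mul]
    exact degree_smul_le _ _
  · intro i
    refine ⟨∑ k ∈ range e, c k * Ring.choose ((i : ℤ) - (i0 : ℤ)) k, ?_⟩
    rw [eval_finset_sum]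
    push_cast
    apply Finset.sum_congr rfl
    intro k _
    rw [eval_mul, eval_C]
    have h1 := bnp_eval (i0 : ℤ) k (i : ℤ)
    rw [Int.cast_natCast] at h1
    rw [h1]
  · intro i hia hib
    obtain ⟨t, ht⟩ : ∃ t : ℕ, i = i0 + t := ⟨i - i0, by have := hmin i hia; omega⟩
    subst ht
    rw [eval_finset_sum]
    have h1 : ∀ k : ℕ, (bnp i0 k).eval (((i0 + t : ℕ)) : ℝ) = ((t.choose k : ℕ) : ℝ) := by
      intro k
      have h1 := bnp_eval (i0 : ℤ) k (((i0 + t : ℕ)) : ℤ)
      rw [Int.cast_natCast] at h1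
      rw [h1]
      have h2 : (((i0 + t : ℕ) : ℤ) - (i0 : ℤ)) = ((t : ℕ) : ℤ) := by push_cast; ring
      rw [h2, Ring.choose_natCast]
      simp
    have h2 : w (0 + t • 1) = ∑ k ∈ range (t + 1), t.choose k • (fwdDiff 1)^[k] w 0 :=
      shift_eq_sum_fwdDiff_iter 1 w t 0
    have h3 : w (0 + t • 1) = n (r + Q * (i0 + t)) := by
      simp only [w, smul_eq_mul, mul_one, zero_add]
    rw [← h3, h2, Int.cast_sum]
    -- both sums are sums over `range (max e (t+1))`
    have h4 : ∀ k : ℕ, e ≤ k → k ≤ t → (fwdDiff 1)^[k] w 0 = 0 := by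
      intro k hek hkt
      have h5 : (fwdDiff 1)^[k] w 0 = (fwdDiff 1)^[k - e] ((fwdDiff 1)^[e] w) 0 := by
        rw [← Function.iterate_add_apply]
        have h6 : k - e + e = k := by omega
        rw [h6]
      rw [h5, fwdDiff_iter_eq_sum_shift]
      apply Finset.sum_eq_zero
      intro u hu
      rw [Finset.mem_range] at hu
      rw [hw (0 + u • 1) (by
        simp only [smul_eq_mul, mul_one, zero_add]
        have h6 : u + e ≤ t := by omega
        have h7 : r + Q * (i0 + u) + Q * e = r + Q * (i0 + (u + e)) := by ring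
        rw [h7]
        have h8 : Q * (i0 + (u + e)) ≤ Q * (i0 + t) := Nat.mul_le_mul_left _ (by omega)
        omega), smul_zero]
    have hL : ∑ k ∈ range e, eval (((i0 + t : ℕ)) : ℝ) (C ((c k : ℤ) : ℝ) * bnp i0 k) =
        ∑ k ∈ range (e + (t + 1)), ((t.choose k : ℕ) : ℝ) *
          (if k < e then ((((fwdDiff 1)^[k] w 0 : ℤ)) : ℝ) else 0) := by
      rw [← Finset.sum_subset (Finset.range_subset_range.mpr (Nat.le_add_right e (t + 1)))
        (f := fun k => ((t.choose k : ℕ) : ℝ) *
          (if k < e then ((((fwdDiff 1)^[k] w 0 : ℤ)) : ℝ) else 0))]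
      · apply Finset.sum_congr rfl
        intro k hk
        rw [Finset.mem_range] at hk
        rw [eval_mul, eval_C, h1 k, if_pos hk]
        ring
      · intro k _ hk
        rw [Finset.mem_range] at hk
        rw [if_neg hk, mul_zero]
    have hR : ∑ k ∈ range (t + 1), ((((t.choose k) • (fwdDiff 1)^[k] w 0 : ℤ)) : ℝ) =
        ∑ k ∈ range (e + (t + 1)), ((t.choose k : ℕ) : ℝ) *
          (if k < e then ((((fwdDiff 1)^[k] w 0 : ℤ)) : ℝ) else 0) := by
      rw [← Finset.sum_subset (Finset.range_subset_range.mpr (Nat.le_add_left (t + 1) e))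
        (f := fun k => ((t.choose k : ℕ) : ℝ) *
          (if k < e then ((((fwdDiff 1)^[k] w 0 : ℤ)) : ℝ) else 0))]
      · apply Finset.sum_congr rfl
        intro k hk
        rw [Finset.mem_range] at hk
        by_cases hke : k < e
        · rw [if_pos hke]
          simp
        · rw [if_neg hke, h4 k (by omega) (by omega)]
          simp
      · intro k _ hk
        rw [Finset.mem_range] at hk
        rw [Nat.choose_eq_zero_of_lt (by omega)]
        simp
    rw [hL, ← hR]

end Pool.Agent.Q224.MZ
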