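import Pool.Agent.H104.MZ.Stm

/-!
Project MZ (helper104), job POW: the power trick.
-/

set_option autoImplicit false

open Polynomial Finset Pool.Agent.H104.MZ

namespace Pool.Agent.Q224.MZ

lemma act_zero (n : ℕ → ℤ) (j : ℕ) : act n j 0 = 0 := by
  simp [act]

lemma act_add (n : ℕ → ℤ) (j : ℕ) (F G : ℂ[X]) : act n j (F + G) = act n j F + act n j G := by
  unfold act
  apply Polynomial.sum_add_index
  · intro i; simp
  · intro i a b; ring

lemma act_monomial (n : ℕ → ℤ) (j i : ℕ) (c : ℂ) :
    act n j (monomial i c) = c * (n (j + i) : ℂ) := by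
  unfold act
  rw [Polynomial.sum_monomial_index]
  simp

lemma act_sum {ι : Type*} (n : ℕ → ℤ) (j : ℕ) (s : Finset ι) (F : ι → ℂ[X]) :
    act n j (∑ i ∈ s, F i) = ∑ i ∈ s, act n j (F i) := by
  classical
  induction s using Finset.induction_on with
  | empty => simp [act_zero]
  | insert a s ha ih => rw [Finset.sum_insert ha, Finset.sum_insert ha, act_add, ih]

lemma act_monomial_mul (n : ℕ → ℤ) (j i : ℕ) (c : ℂ) (F : ℂ[X]) :
    act n j (monomial i c * F) = c * act n (j + i) F := by
  induction F using Polynomial.induction_on' with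
  | add p q hp hq => rw [mul_add, act_add, act_add, hp, hq, mul_add]
  | monomial k d =>
    rw [monomial_mul_monomial, act_monomial, act_monomial, add_assoc, mul_assoc]

lemma act_mul (n : ℕ → ℤ) (j : ℕ) (V F : ℂ[X]) :
    act n j (V * F) = V.sum (fun i c => c * act n (j + i) F) := by
  induction V using Polynomial.induction_on' with
  | add p q hp hq =>
    rw [add_mul, act_add, hp, hq]
    symm
    apply Polynomial.sum_add_index
    · intro i; simp
    · intro i a b; ring
  | monomial k d =>
    rw [act_monomial_mul, Polynomial.sum_monomial_index]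
    simp

/-- If `F` kills `n` inside `[a,b)`, so does every multiple of `F`. -/
lemma act_kill (n : ℕ → ℤ) (a b D : ℕ) (V F : ℂ[X])
    (hF : ∀ j, a ≤ j → j + F.natDegree < b → act n j F = 0) (hD : (V * F).natDegree ≤ D)
    (j : ℕ) (ha : a ≤ j) (hb : j + D < b) : act n j (V * F) = 0 := by
  by_cases hV : V = 0
  · rw [hV, zero_mul, act_zero]
  by_cases hF0 : F = 0
  · rw [hF0, mul_zero, act_zero]
  rw [natDegree_mul hV hF0] at hD
  rw [act_mul, Polynomial.sum_def]
  apply Finset.sum_eq_zero
  intro i hi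
  have h1 : i ≤ V.natDegree := le_natDegree_of_mem_supp i hi
  rw [hF (j + i) (by omega) (by omega), mul_zero]

theorem t_POW : S_POW := by
  intro S Q e U F hQ hsum
  have hne : (X ^ Q - 1 : ℂ[X]) ≠ 0 := by
    have h := X_pow_sub_C_ne_zero (R := ℂ) (n := Q) (by omega) 1
    simpa using h
  have hSpos : 1 ≤ S := by
    by_contra h
    have hS0 : S = 0 := by omega
    rw [hS0, Finset.sum_range_zero] at hsum
    exact pow_ne_zero e hne hsum.symm
  obtain ⟨A1, hA1⟩ : ∃ A1 : ℕ, ∀ σ ∈ range S, (U σ * F σ).natDegree ≤ A1 :=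
    ⟨(range S).sup (fun σ => (U σ * F σ).natDegree), fun σ hσ =>
      Finset.le_sup (f := fun σ => (U σ * F σ).natDegree) hσ⟩
  refine ⟨S * A1, ?_⟩
  intro M n a b hkill j ha hb
  rw [pow_mul, ← hsum, Finset.sum_pow_eq_sum_piAntidiag, act_sum]
  apply Finset.sum_eq_zero
  intro κ hκ
  rw [Finset.mem_piAntidiag] at hκ
  obtain ⟨hκs, -⟩ := hκ
  obtain ⟨σ, hσ, hσM⟩ : ∃ σ ∈ range S, M ≤ κ σ := by
    have hnon : (range S).Nonempty := ⟨0, by rw [Finset.mem_range]; omega⟩
    apply Finset.exists_le_of_sum_le (f := fun _ => M) (g := κ) hnon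
    rw [Finset.sum_const, card_range, smul_eq_mul]
    exact hκs.ge
  -- the degree bound
  have hdeg : ((((Nat.multinomial (range S) κ : ℕ) : ℂ[X])) *
      ∏ i ∈ range S, (U i * F i) ^ κ i).natDegree ≤ S * A1 * M := by
    refine (natDegree_mul_le).trans ?_
    rw [natDegree_natCast, zero_add]
    refine (natDegree_prod_le _ _).trans ?_
    calc ∑ i ∈ range S, ((U i * F i) ^ κ i).natDegree
        ≤ ∑ i ∈ range S, κ i * A1 := by
          apply Finset.sum_le_sum
          intro i hi
          refine natDegree_pow_le.trans ?_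
          exact Nat.mul_le_mul_left _ (hA1 i hi)
      _ = (∑ i ∈ range S, κ i) * A1 := by rw [Finset.sum_mul]
      _ = S * A1 * M := by
          rw [hκs]
          ring
  -- factor
  have hfac : (((Nat.multinomial (range S) κ : ℕ) : ℂ[X])) *
      ∏ i ∈ range S, (U i * F i) ^ κ i =
      ((((Nat.multinomial (range S) κ : ℕ) : ℂ[X])) * (∏ i ∈ (range S).erase σ, (U i * F i) ^ κ i) *
        (U σ ^ κ σ * F σ ^ (κ σ - M))) * F σ ^ M := by
    rw [← Finset.mul_prod_erase _ _ hσ, mul_pow]
    have h1 : F σ ^ κ σ = F σ ^ (κ σ - M) * F σ ^ M := by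
      rw [← pow_add]
      congr 1
      omega
    rw [h1]
    ring
  rw [hfac] at hdeg ⊢
  exact act_kill n a b (S * A1 * M) _ _ (hkill σ (Finset.mem_range.mp hσ)) hdeg j ha hb

end Pool.Agent.Q224.MZ
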